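import Pool.Agent.H78.GX.H78.GS.TF3
import Pool.Agent.H78.GX.H96.N4D.PSP

/-!
# Theorem (G), section 3a, group F: the phases along the edge of a prime number
-/

set_option autoImplicit false

open Finset Pool.Agent.H6.N4D Pool.Agent.H78.GX.H6.N4D Pool.Agent.H78.GX Pool.Agent.H78.GX.H78.GS

namespace Pool.Agent.H78.GX.H80.GS3

/-- numerical estimates for one edge -/
theorem phe_num (W rho x n m T c : ℝ) (hW : 100 ≤ W) (hu4 : W ^ 4 ≤ rho * x)
    (hrho : 0 < rho) (hrho2 : rho ≤ 1 / 100) (hx : 0 < x) (hn : x - 1 < n) (hm : |m| ≤ 2 * W)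
    (hc : 0 ≤ c) (hc1 : c ≤ 1) (hT : |T| ≤ 1 / rho ^ 2) :
    0 < n ∧ |m / n| ≤ 1 / 2 ∧ |m| * (c / (rho * x)) ≤ 1 / W ∧
      |T| * (|m / n| / x + 2 * (m / n) ^ 2) ≤ 1 / W := by
  have hW0 : 0 < W := by linarith
  have hu0 : 0 < rho * x := lt_of_lt_of_le (by positivity) hu4
  have hux : rho * x ≤ x / 100 := by nlinarith
  have hW1 : 1 ≤ W ^ 4 := one_le_pow₀ (by linarith)
  have hx2 : x / 2 ≤ n := by linarith
  have hn0 : 0 < n := by linarith
  have hW4 : W ^ 4 = W ^ 2 * (W * W) := by ring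
  have hW2 : 0 < W ^ 2 := by positivity
  -- `|m / n| ≤ rho / W ^ 2`
  have hq : |m / n| ≤ rho / W ^ 2 := by
    rw [abs_div, abs_of_pos hn0, div_le_div_iff₀ hn0 hW2]
    have h1 : |m| * W ^ 2 ≤ 2 * W * W ^ 2 := mul_le_mul_of_nonneg_right hm hW2.le
    have h2 : 4 * W * W ^ 2 ≤ W ^ 4 := by
      rw [hW4]
      nlinarith [mul_pos hW0 hW2]
    have h3 : rho * (x / 2) ≤ rho * n := mul_le_mul_of_nonneg_left hx2 hrho.le
    linarith
  have hW1' : (1 : ℝ) ≤ W ^ 2 := one_le_pow₀ (by linarith)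
  have hq2 : rho / W ^ 2 ≤ rho := div_le_self hrho.le hW1'
  have hxinv : 1 / x ≤ rho / W ^ 4 := by
    rw [div_le_div_iff₀ hx (by positivity)]
    linarith
  refine ⟨hn0, by linarith, ?_, ?_⟩
  · rw [← mul_div_assoc, div_le_div_iff₀ hu0 hW0]
    have h1 : |m| * c ≤ 2 * W * 1 := mul_le_mul hm hc1 hc (by positivity)
    have h2 : |m| * c * W ≤ 2 * W * 1 * W := mul_le_mul_of_nonneg_right h1 hW0.le
    have h3 : 2 * W * 1 * W ≤ W ^ 4 := by
      rw [hW4]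
      have h5 : (2 : ℝ) ≤ W ^ 2 := by nlinarith
      have h6 : 2 * (W * W) ≤ W ^ 2 * (W * W) :=
        mul_le_mul_of_nonneg_right h5 (mul_pos hW0 hW0).le
      linarith
    linarith
  · have h1 : |m / n| / x ≤ rho ^ 2 / W ^ 4 := by
      rw [div_eq_mul_one_div]
      calc |m / n| * (1 / x) ≤ rho * (rho / W ^ 4) :=
            mul_le_mul (hq.trans hq2) hxinv (by positivity) hrho.le
        _ = _ := by ring
    have h2 : (m / n) ^ 2 ≤ rho ^ 2 / W ^ 4 := by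
      rw [← sq_abs]
      calc |m / n| ^ 2 ≤ (rho / W ^ 2) ^ 2 := pow_le_pow_left₀ (abs_nonneg _) hq 2
        _ = rho ^ 2 / W ^ 4 := by rw [div_pow]; ring
    have h3 : |m / n| / x + 2 * (m / n) ^ 2 ≤ 3 * (rho ^ 2 / W ^ 4) := by linarith
    have h4 : 0 ≤ |m / n| / x + 2 * (m / n) ^ 2 := by positivity
    calc |T| * (|m / n| / x + 2 * (m / n) ^ 2)
        ≤ (1 / rho ^ 2) * (3 * (rho ^ 2 / W ^ 4)) := mul_le_mul hT h3 h4 (by positivity)
      _ = 3 / W ^ 4 := by field_simp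
      _ ≤ 1 / W := by
          rw [div_le_div_iff₀ (by positivity) hW0, hW4]
          nlinarith [mul_pos hW0 hW2, mul_pos hW0 hW0]

/-- `rho` is smaller than `1 / W` -/
theorem phe_rho {S : Par} (hS : Okx S) {W : ℝ} (hW : 1 ≤ W) (hu : W ≤ S.P ^ (100 * S.K)) :
    S.rho ≤ 1 / W := by
  rw [le_div_iff₀ (by linarith)]
  exact hS.rho_mul hu

/-- the difference of the phases along one edge -/
theorem phe_dec (φ' φ θ n n' p T h t l A A' : ℝ) (k : ℤ) (hn : 0 < n) (hn' : 0 < n')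
    (hp : 0 < p) (hA : A' = p * A + k) :
    (φ' - A' * n' - T * Real.log n' + T * (h * (t - l))) -
      (φ - A * n - T * Real.log n + T * (h * t)) - 1 / 2 =
      (φ' - (φ + θ * (p * n' - n) + 1 / 2)) +
      ((p * n' - n) * (θ - A) - T * Real.log (1 + (p * n' - n) / n)) +
      -(T * (h * l - Real.log p)) - k * n' := by
  have h1 : Real.log (1 + (p * n' - n) / n) = Real.log p + Real.log n' - Real.log n := by
    rw [show 1 + (p * n' - n) / n = p * n' / n by field_simp; ring,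
      Real.log_div (by positivity) hn.ne', Real.log_mul hp.ne' hn'.ne']
  rw [h1, hA]
  ring

theorem pf_PHE (hSIZ : T_SIZ) : T_PHE := by
  intro K b₀ ζ hK hζ
  obtain ⟨X₁, hX₁⟩ := hSIZ
  obtain ⟨X₂, hX₂⟩ := LL_large (6 / ζ)
  refine ⟨max X₁ X₂, ?_⟩
  intro S e₀ e₁ ν T θ φ p b a a' t j i hOk hSK hX he₀ he₀ζ he₁ he₁1 hν hν1 hT ht ht' hp hb hbb
    hmod hRE hAt
  obtain ⟨-, hP, -, hrho2, hh4, -, -, -, hI, hl, -, -, -⟩ :=
    hX₁ S hOk ((le_max_left _ _).trans hX)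
  have hL := hX₂ S.X ((le_max_right _ _).trans hX)
  have hP1 : (1 : ℝ) ≤ S.P := by linarith
  have hpQ := (mem_Pr (by positivity : (0 : ℝ) ≤ S.P ^ (2 * S.K))).1 hp
  obtain ⟨-, hpW, hpp⟩ := hpQ
  set W : ℝ := S.P ^ (2 * S.K) with hW
  have hPW : S.P ≤ W := by
    rw [hW]
    have hK1 := hOk.hK
    calc S.P = S.P ^ 1 := (pow_one _).symm
      _ ≤ S.P ^ (2 * S.K) := pow_le_pow_right₀ hP1 (by omega)
  have hW100 : 100 ≤ W := hP.trans hPW
  have hW0 : 0 < W := by linarith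
  have hWζ : 6 / ζ ≤ W := by
    have h1 : S.L ≤ S.P := by
      have h2 : S.P = Real.exp S.L := rfl
      rw [h2]
      linarith [Real.add_one_le_exp S.L]
    exact hL.trans (h1.trans hPW)
  have hW4 : ∀ y : ℝ, S.P ^ (100 * S.K) ≤ y → W ^ 4 ≤ y := by
    intro y hy
    refine le_trans ?_ hy
    rw [hW, ← pow_mul]
    exact pow_le_pow_right₀ hP1 (by omega)
  obtain ⟨hu, hxX, hn1, hn2⟩ := hI t ht
  obtain ⟨hu', -, hn1', hn2'⟩ := hI _ ht'
  have hu4 := hW4 _ hu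
  have hu4' := hW4 _ hu'
  have hrho := hOk.hr0
  have hp1 : 1 ≤ p := hpp.one_lt.le
  have hp0 : (0 : ℝ) < p := by exact_mod_cast hp1
  have hb0 : (0 : ℝ) < b := by exact_mod_cast hb
  have hD := Pool.Agent.H78.GX.H96.N4D.psp_int S hOk p hp1 t hxX hn1 hn2 hn1' hn2' (hl p hp1)
  have hD2 : |(p : ℝ) * S.n (t - S.l p) - S.n t| ≤ 2 * W := by linarith
  have hT1 : |T| ≤ 1 / S.rho ^ 2 := hT.trans (div_le_div_of_nonneg_right he₁1 (by positivity))
  have hc0 : 0 ≤ ν * e₁ := by positivity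
  have hc1 : ν * e₁ ≤ 1 := by nlinarith
  obtain ⟨hn0, hq, hb1, hb2⟩ := phe_num W S.rho (S.x t) (S.n t)
    ((p : ℝ) * S.n (t - S.l p) - S.n t) T (ν * e₁) hW100 hu4 hrho hrho2 (Par.x_pos t) hn1 hD2
    hc0 hc1 hT1
  obtain ⟨hn0', -, -, -⟩ := phe_num W S.rho (S.x (t - S.l p)) (S.n (t - S.l p)) 0 T (ν * e₁)
    hW100 hu4' hrho hrho2 (Par.x_pos _) hn1' (by rw [abs_zero]; positivity) hc0 hc1 hT1
  have hcast : (((p * S.n (t - S.l p) - S.n t : ℤ)) : ℝ) = (p : ℝ) * S.n (t - S.l p) - S.n t := by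
    push_cast
    ring
  have hg : nd (θ t j - (a : ℝ) / b - T / S.x t) ≤ ν * e₁ / (S.rho * S.x t) := by
    have h1 := hAt
    unfold At fh at h1
    rw [show θ t j - (a : ℝ) / b - T / S.x t = θ t j - T / S.x t - (a : ℝ) / b by ring]
    exact h1
  have hmid := Pool.Agent.H78.GX.H96.N4D.mid_est (p * S.n (t - S.l p) - S.n t : ℤ) (S.x t) (S.n t) T
    (θ t j - (a : ℝ) / b) (ν * e₁ / (S.rho * S.x t)) hn0 hn2 (by linarith)
    (by rw [hcast]; exact hq) hg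
  rw [hcast] at hmid
  have hrW := phe_rho hOk (by linarith : (1 : ℝ) ≤ W) (by
    rw [hW]; exact pow_le_pow_right₀ hP1 (by omega))
  have hb3 : |-(T * (S.h * S.l p - Real.log p))| ≤ 1 / W := by
    rw [abs_neg, abs_mul]
    have h0 : S.h / 2 ≤ S.rho ^ 2 * (1 / W) := by
      have h1 : S.rho ^ 4 = S.rho ^ 2 * (S.rho * S.rho) := by ring
      have h2 : S.rho * S.rho ≤ 1 / W * 1 :=
        mul_le_mul hrW (by linarith) hrho.le (by positivity)
      have h3 : S.rho ^ 2 * (S.rho * S.rho) ≤ S.rho ^ 2 * (1 / W * 1) :=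
        mul_le_mul_of_nonneg_left h2 (by positivity)
      have h4 : 0 ≤ S.h := hOk.hh.le
      linarith
    calc |T| * |S.h * S.l p - Real.log p| ≤ (1 / S.rho ^ 2) * (S.rho ^ 2 * (1 / W)) :=
          mul_le_mul hT1 ((hl p hp1).trans h0) (abs_nonneg _) (by positivity)
      _ = 1 / W := by
          field_simp
  obtain ⟨k, hk⟩ : ∃ k : ℤ, (a' : ℝ) / b = p * ((a : ℝ) / b) + k := by
    obtain ⟨k, hk⟩ := (Nat.modEq_iff_dvd.1 hmod)
    refine ⟨k, ?_⟩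
    have h1 : ((a' : ℤ) : ℝ) - ((p * a : ℕ) : ℤ) = (b : ℤ) * k := by exact_mod_cast hk
    push_cast at h1
    field_simp
    linarith
  have hdec := phe_dec (φ (t - S.l p) i) (φ t j) (θ t j) (S.n t) (S.n (t - S.l p)) p T S.h t
    (S.l p) ((a : ℝ) / b) ((a' : ℝ) / b) k hn0 hn0' hp0 hk
  have hps : ps S φ T b a' (t - S.l p) i - ps S φ T b a t j - 1 / 2 =
      (φ (t - S.l p) i - (φ t j + θ t j * (p * (S.n (t - S.l p) : ℝ) - S.n t) + 1 / 2)) +
      (((p : ℝ) * S.n (t - S.l p) - S.n t) * (θ t j - (a : ℝ) / b) -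
        T * Real.log (1 + ((p : ℝ) * S.n (t - S.l p) - S.n t) / S.n t)) +
      -(T * (S.h * S.l p - Real.log p)) - ((k * (S.n (t - S.l p) : ℤ) : ℤ) : ℝ) := by
    unfold ps
    push_cast
    exact hdec
  rw [hps, nd_sub_int]
  refine (nd_add_le _ _).trans ?_
  have h2 := nd_add_le
    (φ (t - S.l p) i - (φ t j + θ t j * (p * (S.n (t - S.l p) : ℝ) - S.n t) + 1 / 2))
    (((p : ℝ) * S.n (t - S.l p) - S.n t) * (θ t j - (a : ℝ) / b) -
      T * Real.log (1 + ((p : ℝ) * S.n (t - S.l p) - S.n t) / S.n t))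
  have h3 := nd_le_abs (-(T * (S.h * S.l p - Real.log p)))
  have h4 := hRE.2
  have h5 : 3 * (1 / W) ≤ ζ / 2 := by
    rw [mul_one_div, div_le_iff₀ hW0]
    rw [div_le_iff₀ hζ] at hWζ
    linarith
  linarith

end Pool.Agent.H78.GX.H80.GS3
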