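import Pool.Agent.H78.GX.H78.GS.TA3

/-!
# Theorem (G), section 3a: on a minimal bundle every invariant function is almost constant
-/

set_option autoImplicit false

open Finset Pool.Agent.H6.N4D Pool.Agent.H78.GX.H6.N4D Pool.Agent.H78.GX Pool.Agent.H78.GX.H78.GS

namespace Pool.Agent.H78.GX.H80.GS3

lemma N_nonneg {S : Par} (hS : Okx S) : 0 ≤ S.N := by
  have h1 := hS.hI1
  have hL : 0 ≤ S.L := by
    unfold Par.L LL
    exact Real.rpow_nonneg (Real.log_nonneg hS.hX) _
  have h2 : 0 ≤ S.N * S.h := le_trans (by positivity) h1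
  exact nonneg_of_mul_nonneg_left h2 hS.hh

lemma inv_mono {S : Par} {RP RW : ℕ → ℤ → ℕ → ℕ → Prop} {e e' : ℝ} {F : ℤ → Finset ℕ}
    (hN : 0 ≤ S.N) (h : Inv S RP RW e F) (he : e ≤ e') : Inv S RP RW e' F :=
  ⟨h.pr.trans (mul_le_mul_of_nonneg_right he hN),
    fun w h1 h2 => (h.sh w h1 h2).trans (mul_le_mul_of_nonneg_right he hN)⟩

/-- two properties which hold almost everywhere hold together somewhere -/
lemma exists_both {S : Par} {E E' : ℤ → Prop} {κ κ' : ℝ} (hN : 0 < S.N)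
    (h : S.cnt E ≤ κ * S.N) (h' : S.cnt E' ≤ κ' * S.N) (hk : κ + κ' < 1) :
    ∃ t ∈ S.I, ¬ E t ∧ ¬ E' t := by
  have h1 : S.cnt (fun t => E t ∨ E' t) < S.N := by
    refine (Par.cnt_or E E').trans_lt ?_
    have : (κ + κ') * S.N < 1 * S.N := mul_lt_mul_of_pos_right hk hN
    linarith
  obtain ⟨t, ht, h2⟩ := Par.exists_not hN.le h1
  exact ⟨t, ht, fun h3 => h2 (Or.inl h3), fun h3 => h2 (Or.inr h3)⟩

theorem pf_PIB (hRNK : T_RNK) (hCTX : T_CTX) (hSBI : T_SBI) (hWTS : T_WTS) : T_PIB := by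
  intro B c X₁ hG r₀
  obtain ⟨C₁, hC₁, hR⟩ := hRNK B c X₁ hG r₀
  refine ⟨C₁, hC₁, ?_⟩
  intro C K M ν e' hC hBK hM hν he' heK
  obtain ⟨X₂, hX₂⟩ := hR K hBK
  have hB2 : 2 ≤ B := hG.2.1
  have hK1 : 1 ≤ K := by omega
  obtain ⟨X₃, hX₃⟩ := hWTS.2.1 (2 * K) (by omega)
  have hKr : (0 : ℝ) < K := by exact_mod_cast hK1
  set D : ℝ := 64 * (1 + 2 * K) * (r₀ + 1) with hD
  have hDpos : 0 < D := by rw [hD]; positivity
  refine ⟨min (e' / 4) (e' * ν / D), max X₂ X₃, lt_min (by positivity) (by positivity),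
    (min_le_left _ _).trans (by linarith), ?_⟩
  set e : ℝ := min (e' / 4) (e' * ν / D) with he
  have hepos : 0 < e := lt_min (by positivity) (by positivity)
  have he1 : e ≤ e' / 4 := min_le_left _ _
  have he2 : e ≤ e' * ν / D := min_le_right _ _
  intro S hS hSK hSX RP RW F s G hF hInv hRk hMnl hGM hAI
  have hN0 : 0 ≤ S.N := N_nonneg hS
  set κ : ℝ := C / (K : ℝ) ^ 2 with hκ
  have hCpos : 0 < C := by linarith
  have hκpos : 0 < κ := by rw [hκ]; positivity
  have triv : ∀ E : ℤ → Prop, S.cnt E ≤ S.N := fun E =>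
    (Par.cnt_le_card E).trans (Par.card_I hN0).le
  rcases le_or_gt 1 (5 * κ) with h5 | h5
  · refine ⟨0, (triv _).trans ?_⟩
    nlinarith
  rcases hN0.eq_or_lt with hN00 | hN
  · refine ⟨0, (triv _).trans ?_⟩
    rw [← hN00]; simp
  rcases Nat.eq_zero_or_pos s with hs0 | hs
  · subst hs0
    refine ⟨0, ?_⟩
    have h1 : S.cnt (fun t => ∃ j ∈ F t, ν < |G t j - 0|) ≤ S.cnt (fun t => (F t).card ≠ 0) := by
      apply Par.cnt_mono
      rintro t - ⟨j, hj, -⟩
      exact Finset.card_ne_zero_of_mem hj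
    have h2 : S.cnt (fun t => (F t).card ≠ 0) ≤ 3 * κ * S.N := hRk
    nlinarith [mul_pos hκpos hN]
  -- the weight of the prime numbers
  have hW : ∑ p ∈ S.Q, 1 / (p : ℝ) ≤ 2 * K := by
    have h1 := hX₃ S.X ((le_max_right _ _).trans hSX)
    unfold Par.Q Par.P
    rw [hSK]
    push_cast at h1
    exact h1
  have hW0 : 0 ≤ ∑ p ∈ S.Q, 1 / (p : ℝ) := Finset.sum_nonneg fun p _ => by positivity
  -- the cuts
  have key : ∀ m : ℕ, ∃ (y : ℝ) (s' : ℕ), -M - ν + m * (ν / 4) ≤ y ∧
      y ≤ -M - ν + m * (ν / 4) + ν / 4 ∧ (s' = 0 ∨ s' = s) ∧ Rk S κ (sbl F G y) s' := by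
    intro m
    obtain ⟨y, hy1, hy2, hy3⟩ := hCTX S r₀ F G (-M - ν + m * (ν / 4))
      (-M - ν + m * (ν / 4) + ν / 4) e hN0 hF (by linarith) hepos
    have h3 : (-M - ν + m * (ν / 4) + ν / 4) - (-M - ν + m * (ν / 4)) = ν / 4 := by ring
    rw [h3] at hy3
    have hsub : ∀ t, sbl F G y t ⊆ F t := fun t => Finset.filter_subset _ _
    have hI := hSBI S RP RW e e (8 * r₀ * e / (ν / 4)) y F G hN0 hepos.le hepos.le
      (by positivity) hInv hAI hy3
    have hle : e + e + (1 + ∑ p ∈ S.Q, 1 / (p : ℝ)) * (8 * r₀ * e / (ν / 4)) ≤ e' := by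
      have h4 : (1 + ∑ p ∈ S.Q, 1 / (p : ℝ)) * (8 * r₀ * e / (ν / 4)) ≤
          (1 + 2 * K) * (8 * r₀ * e / (ν / 4)) :=
        mul_le_mul_of_nonneg_right (by linarith) (by positivity)
      have h5 : (1 + 2 * (K : ℝ)) * (8 * r₀ * e / (ν / 4)) ≤
          (1 + 2 * K) * (8 * (r₀ + 1) * (e' * ν / D) / (ν / 4)) := by
        apply mul_le_mul_of_nonneg_left _ (by positivity)
        apply div_le_div_of_nonneg_right _ (by positivity)
        apply mul_le_mul _ he2 hepos.le (by positivity)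
        linarith
      have h6 : (1 + 2 * (K : ℝ)) * (8 * (r₀ + 1) * (e' * ν / D) / (ν / 4)) = e' / 2 := by
        rw [hD]
        field_simp
        ring
      linarith
    have hI' : Inv S RP RW e' (sbl F G y) := inv_mono hN0 hI hle
    obtain ⟨s', -, hs'⟩ := hX₂ S hS hSK ((le_max_left _ _).trans hSX) RP RW e' (sbl F G y) he' heK
      (fun t => (hsub t).trans (hF t)) hI'
    have hs'2 : Rk S κ (sbl F G y) s' := by
      unfold Rk at hs' ⊢
      refine hs'.trans (mul_le_mul_of_nonneg_right ?_ hN0)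
      rw [hκ]
      exact div_le_div_of_nonneg_right hC (by positivity)
    refine ⟨y, s', hy1, hy2, ?_, hs'2⟩
    obtain ⟨t, -, ht1, ht2⟩ := exists_both hN hs'2 hRk (by linarith)
    have hss : s' ≤ s := by
      have h7 := Finset.card_le_card (hsub t)
      have h8 : (sbl F G y t).card = s' := not_not.1 ht1
      have h9 : (F t).card = s := not_not.1 ht2
      rw [h8, h9] at h7
      exact h7
    by_contra hcon
    rw [not_or] at hcon
    exact hMnl s' (sbl F G y) (by omega) (by omega) hsub hI' hs'2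
  choose y sm hy1 hy2 hy3 hy4 using key
  have hsm0 : sm 0 = 0 := by
    rcases hy3 0 with h | h
    · exact h
    · exfalso
      have h1 := hy4 0
      obtain ⟨t, -, ht1, -⟩ := exists_both hN h1 h1 (by linarith)
      have h2 : (sbl F G (y 0) t).card = sm 0 := not_not.1 ht1
      have h3 : sbl F G (y 0) t = ∅ := by
        unfold sbl
        rw [Finset.filter_eq_empty_iff]
        intro j _ hj
        have h4 := hy2 0
        have h5 := (abs_le.1 (hGM t j)).1
        push_cast at h4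
        linarith
      rw [h3, h, Finset.card_empty] at h2
      omega
  have hex : ∃ m, sm m = s := by
    refine ⟨⌈4 * (2 * M + ν) / ν⌉₊, ?_⟩
    set R := ⌈4 * (2 * M + ν) / ν⌉₊ with hRdef
    have hRge : 4 * (2 * M + ν) / ν ≤ R := Nat.le_ceil _
    have h1 := hy4 R
    obtain ⟨t, -, ht1, ht2⟩ := exists_both hN h1 hRk (by linarith)
    have h2 : (sbl F G (y R) t).card = sm R := not_not.1 ht1
    have h3 : (F t).card = s := not_not.1 ht2
    have h4 : sbl F G (y R) t = F t := by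
      unfold sbl
      rw [Finset.filter_eq_self]
      intro j _
      have h5 := hy1 R
      have h6 := (abs_le.1 (hGM t j)).2
      have h7 : 4 * (2 * M + ν) ≤ R * ν := (div_le_iff₀ hν).1 hRge
      linarith
    rw [h4, h3] at h2
    exact h2.symm
  classical
  obtain ⟨m, hm1, hm2⟩ : ∃ m, sm (m + 1) = s ∧ sm m = 0 := by
    have h1 := Nat.find_spec hex
    rcases hf : Nat.find hex with _ | m
    · rw [hf, hsm0] at h1
      omega
    · refine ⟨m, by rw [← hf]; exact h1, ?_⟩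
      have h2 : ¬ sm m = s := Nat.find_min hex (by rw [hf]; exact Nat.lt_succ_self m)
      rcases hy3 m with h3 | h3
      · exact h3
      · exact absurd h3 h2
  refine ⟨y (m + 1), ?_⟩
  have hA : S.cnt (fun t => (F t).card ≠ s) ≤ 3 * κ * S.N := hRk
  have hB : S.cnt (fun t => (sbl F G (y m) t).card ≠ 0) ≤ κ * S.N := by
    have := hy4 m
    rw [hm2] at this
    exact this
  have hC' : S.cnt (fun t => (sbl F G (y (m + 1)) t).card ≠ s) ≤ κ * S.N := by
    have := hy4 (m + 1)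
    rw [hm1] at this
    exact this
  have h1 : S.cnt (fun t => ∃ j ∈ F t, ν < |G t j - y (m + 1)|) ≤
      S.cnt (fun t => (F t).card ≠ s) + S.cnt (fun t => (sbl F G (y m) t).card ≠ 0 ∨
        (sbl F G (y (m + 1)) t).card ≠ s) := by
    apply Par.cnt_le_add
    rintro t - ⟨j, hj, hjν⟩
    by_contra hcon
    rw [not_or, not_or, not_not, not_not, not_not] at hcon
    obtain ⟨c1, c2, c3⟩ := hcon
    have h2 : sbl F G (y (m + 1)) t = F t :=
      Finset.eq_of_subset_of_card_le (Finset.filter_subset _ _) (by rw [c3, c1])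
    have h3 : G t j ≤ y (m + 1) := by
      have : j ∈ sbl F G (y (m + 1)) t := by rw [h2]; exact hj
      exact (Finset.mem_filter.1 this).2
    have h4 : y m < G t j := by
      by_contra h5
      have h6 : j ∈ sbl F G (y m) t := Finset.mem_filter.2 ⟨hj, not_lt.1 h5⟩
      exact Finset.card_ne_zero_of_mem h6 c2
    have h5 := hy1 m
    have h6 := hy2 (m + 1)
    push_cast at h6
    have h7 : |G t j - y (m + 1)| ≤ ν := by
      rw [abs_le]
      constructor <;> linarith
    linarith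
  have h2 := Par.cnt_or (S := S) (fun t => (sbl F G (y m) t).card ≠ 0)
    (fun t => (sbl F G (y (m + 1)) t).card ≠ s)
  calc _ ≤ _ := h1
    _ ≤ 3 * κ * S.N + (κ * S.N + κ * S.N) := add_le_add hA (h2.trans (add_le_add hB hC'))
    _ = _ := by ring

end Pool.Agent.H78.GX.H80.GS3
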